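import Pool.Agent.T9h85.EP.Diag
import Pool.Agent.N603.DB.Per
import Pool.Agent.T9h59.OR.B
import Pool.Agent.N760.IT.E
import Pool.Agent.N790.CM.F
import Pool.Agent.N251.LF.Win
import Pool.Agent.N251.LF.Fields

/-!
# Exponentials of algebraic numbers and periods: members of one-parameter families with heights near special numbers

The members of a one-parameter family which are not good at their own height are few (`N603.DB.count`). Here the tools for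
thin sets of heights are applied, for all number fields in `ℂ`, all degrees and countably many numbers `z` at once.
-/

set_option autoImplicit false

namespace Pool.Agent.T9h85.EP

open Finset Filter Topology
open Pool.Agent Pool.Agent.Y890.MV Pool.Agent.Y890.SM Pool.Agent.R349.PC
open Pool.Agent.N603.DB (count height)
open Pool.Agent.N733.TG (Expanding LM)
open Pool.Agent.T9h59.OR (SubOrder sub_good)
open Pool.Agent.N790.CM (Carries FewTimes keep_good)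
open Pool.Agent.N760.IT (orb orbit_good)
open Pool.Agent.N826.IT.Orb (AlmostAll almostAll_mono almostAll_finset almostAll_and diagonal)
open Pool.Agent.N251.LF (Fam linear_good)

/-- field, degree, number -/
abbrev Idx (Z : Set ℂ) := {F : IntermediateField ℚ ℂ // FiniteDimensional ℚ F} × ℕ × Z

theorem countable_idx {Z : Set ℂ} (hZ : Z.Countable) : Countable (Idx Z) := by
  have hcount := N603.DA.countable_fields
  have hZc : Countable Z := hZ.to_subtype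
  infer_instance

variable {X : Type} [Fintype X] [DecidableEq X] [Nonempty X] {ι : Type} [Fintype ι] [DecidableEq ι]
  {n : ι → ℕ}

/-- the member over `x` is good at its own height -/
def Gd (F : SympFam X n) {Z : Set ℂ} (p : Idx Z) (x : p.1.1) : Prop :=
  ∀ [NumberField p.1.1], Module.finrank ℚ p.1.1 ≤ p.2.1 →
    Good F p.2.1 p.1.1 (algebraMap p.1.1 ℂ) (height p.1.1 x) (p.2.2 : ℂ) (fun _ => (x : ℂ))

/-- the height of `x` -/
noncomputable def ht {Z : Set ℂ} (p : Idx Z) (x : p.1.1) : ℝ :=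
  haveI : FiniteDimensional ℚ p.1.1 := p.1.2
  haveI : NumberField p.1.1 := { to_charZero := inferInstance, to_finiteDimensional := inferInstance }
  height p.1.1 x

/-- the point `x` is in the compact part -/
def Adm (F : SympFam X n) {Z : Set ℂ} (p : Idx Z) (x : p.1.1) : Prop := (fun _ : X => (x : ℂ)) ∈ InnerM F.U p.2.1

theorem cnt (F : SympFam X n) (hX : Fintype.card X = 1) {Z : Set ℂ} (p : Idx Z) :
    ∀ ε : ℝ, 0 < ε → ∃ C : ℝ, ∀ Y : ℝ, 1 ≤ Y →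
      {x : p.1.1 | (Adm F p x ∧ ¬ Gd F p x) ∧ ht p x ≤ Y}.Finite ∧
      ({x : p.1.1 | (Adm F p x ∧ ¬ Gd F p x) ∧ ht p x ≤ Y}.ncard : ℝ) ≤ C * Y ^ (0 + ε) := by
  intro ε hε
  obtain ⟨⟨K, hK⟩, k, z⟩ := p
  have : NumberField K := { to_charZero := inferInstance, to_finiteDimensional := hK }
  by_cases hk : Module.finrank ℚ K ≤ k
  · obtain ⟨C, hC⟩ := count F hX k K hk (algebraMap K ℂ) (z : ℂ) hε
    refine ⟨C, fun Y hY => ?_⟩
    have e : {x : K | (Adm F (⟨⟨K, hK⟩, k, z⟩ : Idx Z) x ∧ ¬ Gd F (⟨⟨K, hK⟩, k, z⟩ : Idx Z) x) ∧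
        ht (⟨⟨K, hK⟩, k, z⟩ : Idx Z) x ≤ Y} =
      {x : K | ((fun _ : X => algebraMap K ℂ x) ∈ InnerM F.U k ∧
        ¬ Good F k K (algebraMap K ℂ) (height K x) (z : ℂ) (fun _ => algebraMap K ℂ x)) ∧ height K x ≤ Y} := by
      ext x
      constructor
      · rintro ⟨⟨h1, h2⟩, h3⟩
        refine ⟨⟨h1, fun h => h2 ?_⟩, h3⟩
        intro _ _
        exact h
      · rintro ⟨⟨h1, h2⟩, h3⟩
        exact ⟨⟨h1, fun h => h2 (h hk)⟩, h3⟩
    rw [zero_add]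
    exact e ▸ hC Y hY
  · refine ⟨0, fun Y hY => ?_⟩
    have e : {x : K | (Adm F (⟨⟨K, hK⟩, k, z⟩ : Idx Z) x ∧ ¬ Gd F (⟨⟨K, hK⟩, k, z⟩ : Idx Z) x) ∧
        ht (⟨⟨K, hK⟩, k, z⟩ : Idx Z) x ≤ Y} = ∅ := by
      rw [Set.eq_empty_iff_forall_notMem]
      rintro x ⟨⟨_, h2⟩, _⟩
      exact h2 (fun h => absurd h hk)
    rw [e]
    simp

omit [DecidableEq X] [Nonempty X] in
/-- how the index form is used -/
theorem use (F : SympFam X n) {Z : Set ℂ} (K : IntermediateField ℚ ℂ) [hK : NumberField K] (k : ℕ)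
    (hk : Module.finrank ℚ K ≤ k) (z : ℂ) (hz : z ∈ Z) (x : K)
    (h : Gd F (⟨⟨K, hK.to_finiteDimensional⟩, k, ⟨z, hz⟩⟩ : Idx Z) x) :
    Good F k K (algebraMap K ℂ) (height K x) z (fun _ => (x : ℂ)) := h hk

/-- **Orders of subgroups.** -/
theorem sub_all (F : SympFam X n) (hX : Fintype.card X = 1) {Z : Set ℂ} (hZ : Z.Countable) {G : ℕ → ℝ} {d : ℝ}
    (hG : Expanding G d) {κ c η : ℝ} (hκ : 0 ≤ κ) (hκ1 : κ < 1) (hc0 : 0 ≤ c) (hc1 : c < 1)
    (hη : η < (1 - c) * (1 - κ) / 2) :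
    ∃ P : Set ℕ, (∀ Y : ℕ, ({p : ℕ | p ∈ P ∧ p ≤ Y}.ncard : ℝ) ≤ (Y : ℝ) ^ (1 - η)) ∧
      ∀ (K : IntermediateField ℚ ℂ) [NumberField K] (k : ℕ), Module.finrank ℚ K ≤ k → ∀ z ∈ Z,
        ∃ p₀ : ℕ, ∀ p : ℕ, p₀ ≤ p → p.Prime → p ∉ P → ∀ w, SubOrder ((p : ℝ) ^ c) p w →
          ∀ x : K, (fun _ : X => (x : ℂ)) ∈ InnerM F.U k → |height K x - G w| ≤ (w : ℝ) ^ κ →
            Good F k K (algebraMap K ℂ) (height K x) z (fun _ => (x : ℂ)) := by
  classical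
  have hcnt := countable_idx hZ
  obtain ⟨η', hη1, hη2⟩ := exists_between hη
  obtain ⟨P, hP1, hP2⟩ := diag_pow (fun i : Idx Z => {p : ℕ | p.Prime ∧ ¬ ∀ w, SubOrder ((p : ℝ) ^ c) p w →
      ∀ x : i.1.1, Adm F i x → |ht i x - G w| ≤ (w : ℝ) ^ κ → Gd F i x}) (s := 1 - η') (s' := 1 - η) (by linarith)
    (fun i => by
      obtain ⟨C, hC⟩ := sub_good (Adm F i) (Gd F i) (ht i) hG (s := 0) le_rfl hκ (by linarith) (cnt F hX i) hc0 hc1
        (η := η') (by rw [mul_zero, zero_add]; exact hη2)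
      refine ⟨C, fun Y hY => le_trans ?_ (hC Y hY)⟩
      have hfin : {p : ℕ | p.Prime ∧ p ≤ Y ∧ ¬ ∀ w, SubOrder ((Y : ℝ) ^ c) p w → ∀ x, Adm F i x →
          |ht i x - G w| ≤ (w : ℝ) ^ κ → Gd F i x}.Finite := (Set.finite_Iic Y).subset (fun p h => h.2.1)
      refine Nat.cast_le.2 (Set.ncard_le_ncard ?_ hfin)
      rintro p ⟨⟨h1, h2⟩, h3⟩
      refine ⟨h1, h3, fun h4 => h2 (fun w hw => h4 w ?_)⟩
      obtain ⟨H, h5, u, hu, a, h6, h7, h8⟩ := hw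
      exact ⟨H, h5, u, hu, a, h6, h7.trans (Real.rpow_le_rpow (Nat.cast_nonneg _) (by exact_mod_cast h3) hc0), h8⟩)
  refine ⟨P, hP1, fun K hK k hk z hz => ?_⟩
  obtain ⟨p₀, hp₀⟩ := hP2 (⟨⟨K, hK.to_finiteDimensional⟩, k, ⟨z, hz⟩⟩ : Idx Z)
  refine ⟨p₀, fun p hp hpp hpP w hw x hx h => ?_⟩
  by_contra hcon
  refine hpP (hp₀ p ⟨hpp, fun h4 => hcon ?_⟩ hp)
  exact use F K k hk z hz x (h4 w hw x hx h)

/-- **Multiples of Carmichael's function.** -/
theorem car_all (F : SympFam X n) (hX : Fintype.card X = 1) {Z : Set ℂ} (hZ : Z.Countable) {G : ℕ → ℝ} {d : ℝ}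
    (hG : Expanding G d) {κ B : ℝ} (hκ : 0 ≤ κ) (hB : 1 ≤ B) (h1 : B * κ < 1) {f : ℕ → ℕ} {T : ℕ} (hf : FewTimes f T)
    (U : ℕ) :
    ∃ P : Set ℕ, (∀ Y : ℕ, 1 < Y → ({m : ℕ | m ∈ P ∧ m ≤ Y}.ncard : ℝ) ≤ Y / Real.log Y ^ U) ∧
      ∀ (K : IntermediateField ℚ ℂ) [NumberField K] (k : ℕ), Module.finrank ℚ K ≤ k → ∀ z ∈ Z,
        ∃ m₀ : ℕ, ∀ m : ℕ, m₀ ≤ m → m ∉ P → ∀ w : ℕ, 1 ≤ w → (w : ℝ) ≤ (m : ℝ) ^ B →
          Carries f (Real.exp √(Real.log m)) m w →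
          ∀ x : K, (fun _ : X => (x : ℂ)) ∈ InnerM F.U k → |height K x - G w| ≤ (w : ℝ) ^ κ →
            Good F k K (algebraMap K ℂ) (height K x) z (fun _ => (x : ℂ)) := by
  classical
  have hcnt := countable_idx hZ
  obtain ⟨P, hP1, hP2⟩ := diag_log (fun i : Idx Z => {m : ℕ | 1 ≤ m ∧ ¬ ∀ w : ℕ, 1 ≤ w → (w : ℝ) ≤ (m : ℝ) ^ B →
      Carries f (Real.exp √(Real.log m)) m w →
      ∀ x : i.1.1, Adm F i x → |ht i x - G w| ≤ (w : ℝ) ^ κ → Gd F i x}) U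
    (fun i => by
      obtain ⟨N₀, hN₀⟩ := keep_good (Adm F i) (Gd F i) (ht i) hG (s := 0) le_rfl hκ hB
        (by rw [mul_zero, zero_add]; exact h1) (cnt F hX i) f T hf (U + 1)
      refine ⟨max N₀ 1, fun Y hY => le_trans ?_ (hN₀ Y ((le_max_left _ _).trans hY))⟩
      have hfin : {m : ℕ | 1 ≤ m ∧ m ≤ Y ∧ ¬ ∀ w : ℕ, 1 ≤ w → (w : ℝ) ≤ (Y : ℝ) ^ B →
          Carries f (Real.exp √(Real.log Y)) m w → ∀ x, Adm F i x →
          |ht i x - G w| ≤ (w : ℝ) ^ κ → Gd F i x}.Finite := (Set.finite_Iic Y).subset (fun p h => h.2.1)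
      refine Nat.cast_le.2 (Set.ncard_le_ncard ?_ hfin)
      rintro m ⟨⟨h1, h2⟩, h3⟩
      have hmY : (m : ℝ) ≤ Y := by exact_mod_cast h3
      have hm0 : (0 : ℝ) < m := by exact_mod_cast h1
      refine ⟨h1, h3, fun h4 => h2 (fun w hw1 hw2 hw3 => h4 w hw1 ?_ ?_)⟩
      · exact hw2.trans (Real.rpow_le_rpow (Nat.cast_nonneg _) hmY (by linarith))
      · intro p hp hp2 hp3 hp4
        refine hw3 p hp (lt_of_le_of_lt ?_ hp2) hp3 hp4
        exact Real.exp_le_exp.2 (Real.sqrt_le_sqrt (Real.log_le_log hm0 hmY)))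
  refine ⟨P, hP1, fun K hK k hk z hz => ?_⟩
  obtain ⟨m₀, hm₀⟩ := hP2 (⟨⟨K, hK.to_finiteDimensional⟩, k, ⟨z, hz⟩⟩ : Idx Z)
  refine ⟨max m₀ 1, fun m hm hmP w hw1 hw2 hw3 x hx h => ?_⟩
  by_contra hcon
  refine hmP (hm₀ m ⟨(le_max_right _ _).trans hm, fun h4 => hcon ?_⟩ ((le_max_left _ _).trans hm))
  exact use F K k hk z hz x (h4 w hw1 hw2 hw3 x hx h)

/-- **Orbits of Euler's function.** -/
theorem orb_all (F : SympFam X n) (hX : Fintype.card X = 1) {Z : Set ℂ} (hZ : Z.Countable) {f : ℕ → ℕ} (hf : LM f)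
    {G : ℕ → ℝ} {d : ℝ} (hG : Expanding G d) {κ : ℝ} (hκ : 0 ≤ κ) (hκ1 : κ < 1) :
    ∃ L : ℕ → ℕ, Tendsto L atTop atTop ∧ ∃ A : Set ℕ, AlmostAll (fun m => m ∈ A) ∧
      ∀ (K : IntermediateField ℚ ℂ) [NumberField K] (k : ℕ), Module.finrank ℚ K ≤ k → ∀ z ∈ Z,
        ∃ m₀ : ℕ, ∀ m : ℕ, m₀ ≤ m → m ∈ A → ∀ j ≤ L m,
          ∀ x : K, (fun _ : X => (x : ℂ)) ∈ InnerM F.U k → |height K x - G (orb f j m)| ≤ (orb f j m : ℝ) ^ κ →
            Good F k K (algebraMap K ℂ) (height K x) z (fun _ => (x : ℂ)) := by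
  classical
  have hcnt := countable_idx hZ
  obtain ⟨e, he⟩ := Countable.exists_injective_nat (Idx Z)
  set R : Idx Z → ℕ → ℕ → Prop := fun i j m => ∀ x : i.1.1, Adm F i x →
    |ht i x - G (orb f j m)| ≤ (orb f j m : ℝ) ^ κ → Gd F i x with hR
  have h1 : ∀ i : Idx Z, ∀ l : ℕ, AlmostAll (fun m => ∀ j ≤ l, R i j m) := by
    intro i l
    obtain ⟨L, hL, h2⟩ := orbit_good (Adm F i) (Gd F i) (ht i) hf hG (s := 0) le_rfl hκ (by linarith) (cnt F hX i)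
    obtain ⟨M, hM⟩ := Filter.eventually_atTop.1 (hL.eventually_ge_atTop l)
    have h3 : AlmostAll (fun m => M ≤ m) := by
      rw [Pool.Agent.N826.IT.Orb.almostAll_iff]
      intro ε hε
      obtain ⟨N₀, hN₀⟩ := exists_nat_ge ((M : ℝ) / ε)
      refine ⟨N₀, fun N hN => ?_⟩
      have h4 : ((Icc 1 N).filter (fun m => ¬ M ≤ m)).card ≤ M := by
        calc ((Icc 1 N).filter (fun m => ¬ M ≤ m)).card ≤ (range M).card := by
              apply card_le_card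
              intro m hm
              rw [mem_filter] at hm
              rw [mem_range]
              omega
          _ = M := card_range M
      have h5 : (M : ℝ) ≤ ε * N := by
        have h6 : (M : ℝ) / ε ≤ N := hN₀.trans (by exact_mod_cast hN)
        rw [div_le_iff₀ hε] at h6
        linarith
      refine le_trans (Nat.cast_le.2 (le_trans (le_of_eq ?_) h4)) h5
      congr!
    refine almostAll_mono (almostAll_and h2 h3) (fun m hm j hj => ?_)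
    exact hm.1 j (hj.trans (hM m hm.2))
  have h2 : ∀ l : ℕ, AlmostAll (fun m => ∀ i : Idx Z, e i ≤ l → ∀ j ≤ l, R i j m) := by
    intro l
    have h3 := almostAll_finset (range (l + 1)) (P := fun a m => ∀ i : Idx Z, e i = a → ∀ j ≤ l, R i j m)
      (fun a _ => by
        by_cases ha : ∃ i, e i = a
        · obtain ⟨i, hi⟩ := ha
          refine almostAll_mono (h1 i l) (fun m hm i' hi' => ?_)
          rw [he (hi'.trans hi.symm)]
          exact hm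
        · exact Pool.Agent.N826.IT.Orb.almostAll_true (fun m i hi => absurd ⟨i, hi⟩ ha))
    exact almostAll_mono h3 (fun m hm i hi => hm (e i) (mem_range.2 (by omega)) i rfl)
  obtain ⟨L, hL, h3⟩ := diagonal (P := fun l m => ∀ i : Idx Z, e i ≤ l → ∀ j ≤ l, R i j m)
    (fun a b m hab h i hi j hj => h i (hi.trans hab) j (hj.trans hab)) h2
  refine ⟨L, hL, {m | ∀ i : Idx Z, e i ≤ L m → ∀ j ≤ L m, R i j m}, h3, fun K hK k hk z hz => ?_⟩
  set i : Idx Z := ⟨⟨K, hK.to_finiteDimensional⟩, k, ⟨z, hz⟩⟩ with hi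
  obtain ⟨m₀, hm₀⟩ := Filter.eventually_atTop.1 (hL.eventually_ge_atTop (e i))
  refine ⟨m₀, fun m hm hmA j hj x hx h => ?_⟩
  exact use F K k hk z hz x (hmA i (hm₀ m hm) j hj x hx h)

/-- **Values of generic linear forms.** -/
theorem lin_all (F : SympFam X n) (hX : Fintype.card X = 1) {Z : Set ℂ} (hZ : Z.Countable) {I : Type} {r : ℕ}
    (v : I → Fin r → ℝ) {τ θ : ℝ} (hτ : 0 ≤ τ) (hθ : θ < 1) (hv : Fam v τ) :
    ∃ E : Set (Fin r → ℝ), dimH E ≤ ENNReal.ofReal ((r : ℝ) - 1 + τ / (1 - θ)) ∧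
      ∀ α, α ∉ E → ∀ (K : IntermediateField ℚ ℂ) [NumberField K] (k : ℕ), Module.finrank ℚ K ≤ k → ∀ z ∈ Z,
        ∀ c : ℝ, {i | ¬ ∀ x : K, (fun _ : X => (x : ℂ)) ∈ InnerM F.U k →
          |height K x - ∑ j, α j * v i j| ≤ c * ‖v i‖ ^ θ →
            Good F k K (algebraMap K ℂ) (height K x) z (fun _ => (x : ℂ))}.Finite := by
  classical
  have hcnt := countable_idx hZ
  have key : ∀ p : Idx Z, ∃ E : Set (Fin r → ℝ), dimH E ≤ ENNReal.ofReal ((r : ℝ) - 1 + τ / (1 - θ)) ∧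
      ∀ α, α ∉ E → ∀ c : ℝ, {i | ¬ ∀ x : p.1.1, Adm F p x →
          |ht p x - ∑ j, α j * v i j| ≤ c * ‖v i‖ ^ θ → Gd F p x}.Finite := by
    intro p
    obtain ⟨E, hE, h⟩ := linear_good (Adm F p) (Gd F p) (ht p) v (s := 0) le_rfl hτ hθ hv (cnt F hX p)
    rw [zero_add] at hE
    exact ⟨E, hE, h⟩
  choose E hE hE2 using key
  refine ⟨⋃ p, E p, ?_, fun α hα K hK k hk z hz c => ?_⟩
  · rw [dimH_iUnion]
    exact iSup_le hE
  · set i : Idx Z := ⟨⟨K, hK.to_finiteDimensional⟩, k, ⟨z, hz⟩⟩ with hi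
    refine (hE2 i α (fun h => hα (Set.mem_iUnion.2 ⟨_, h⟩)) c).subset ?_
    intro a ha h
    exact ha (fun x hx h' => use F K k hk z hz x (h x hx h'))

end Pool.Agent.T9h85.EP
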