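import Mathlib

/-!
# Countably many thin sets of natural numbers are up to finite sets contained in one thin set
-/

set_option autoImplicit false

namespace Pool.Agent.T9h85.EP

open Finset

lemma fin_le (P : Set ℕ) (X : ℕ) : {p : ℕ | p ∈ P ∧ p ≤ X}.Finite :=
  (Set.finite_Iic X).subset (fun _ h => h.2)

/-- Countably many sets of natural numbers which have `o (g (X))` elements up to `X` are up to finite sets contained in
one set with at most `g (X)` elements up to `X`. -/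
theorem diag {ι : Type*} [Countable ι] (B : ι → Set ℕ) (g : ℕ → ℝ) (hg : ∀ X, 0 ≤ g X)
    (hB : ∀ i, ∀ δ : ℝ, 0 < δ → ∃ N : ℕ, ∀ X : ℕ, N ≤ X → ({p : ℕ | p ∈ B i ∧ p ≤ X}.ncard : ℝ) ≤ δ * g X) :
    ∃ P : Set ℕ, (∀ X : ℕ, ({p : ℕ | p ∈ P ∧ p ≤ X}.ncard : ℝ) ≤ g X) ∧
      ∀ i, ∃ N : ℕ, ∀ p ∈ B i, N ≤ p → p ∈ P := by
  classical
  obtain ⟨e, he⟩ := Countable.exists_injective_nat ι
  choose N hN using fun i => hB i ((1 / 2 : ℝ) ^ (e i + 1)) (by positivity)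
  refine ⟨{p | ∃ i, p ∈ B i ∧ max (N i) (e i) ≤ p}, fun X => ?_, fun i => ⟨max (N i) (e i), fun p hp h => ⟨i, hp, h⟩⟩⟩
  -- the part of the number `j`
  set Q : ℕ → Set ℕ := fun j => {p | ∃ i, e i = j ∧ p ∈ B i ∧ max (N i) (e i) ≤ p ∧ p ≤ X} with hQ
  have hQf : ∀ j, (Q j).Finite := fun j => (Set.finite_Iic X).subset (fun p ⟨_, _, _, _, h⟩ => h)
  have hsub : {p : ℕ | p ∈ {p | ∃ i, p ∈ B i ∧ max (N i) (e i) ≤ p} ∧ p ≤ X} ⊆
      (((range (X + 1)).biUnion (fun j => (hQf j).toFinset) : Finset ℕ) : Set ℕ) := by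
    rintro p ⟨⟨i, h1, h2⟩, h3⟩
    rw [Finset.mem_coe, mem_biUnion]
    refine ⟨e i, mem_range.2 ?_, (hQf (e i)).mem_toFinset.2 ⟨i, rfl, h1, h2, h3⟩⟩
    have := le_max_right (N i) (e i)
    omega
  have h1 := Set.ncard_le_ncard hsub (Finset.finite_toSet _)
  rw [Set.ncard_coe_finset] at h1
  have h2 : ∀ j, ((hQf j).toFinset.card : ℝ) ≤ (1 / 2 : ℝ) ^ (j + 1) * g X := by
    intro j
    by_cases hj : ∃ i, e i = j ∧ N i ≤ X
    · obtain ⟨i, rfl, hi⟩ := hj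
      have h3 : (hQf (e i)).toFinset.card ≤ {p : ℕ | p ∈ B i ∧ p ≤ X}.ncard := by
        rw [← Set.ncard_eq_toFinset_card _ (hQf (e i))]
        refine Set.ncard_le_ncard ?_ (fin_le _ _)
        rintro p ⟨i', h4, h5, h6, h7⟩
        rw [he h4] at h5
        exact ⟨h5, h7⟩
      exact le_trans (by exact_mod_cast h3) (hN i X hi)
    · have h3 : (hQf j).toFinset = ∅ := by
        rw [Finset.eq_empty_iff_forall_notMem]
        intro p hp
        rw [Set.Finite.mem_toFinset] at hp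
        obtain ⟨i, h4, _, h6, h7⟩ := hp
        exact hj ⟨i, h4, ((le_max_left _ _).trans h6).trans h7⟩
      rw [h3]
      simp only [card_empty, Nat.cast_zero]
      have := hg X
      positivity
  have h3 : ∑ j ∈ range (X + 1), (1 / 2 : ℝ) ^ (j + 1) ≤ 1 := by
    have h4 : ∀ n : ℕ, ∑ j ∈ range n, (1 / 2 : ℝ) ^ (j + 1) = 1 - (1 / 2 : ℝ) ^ n := by
      intro n
      induction n with
      | zero => simp
      | succ n ih => rw [sum_range_succ, ih]; ring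
    rw [h4]
    have : (0 : ℝ) ≤ (1 / 2 : ℝ) ^ (X + 1) := by positivity
    linarith
  calc (({p : ℕ | p ∈ {p | ∃ i, p ∈ B i ∧ max (N i) (e i) ≤ p} ∧ p ≤ X}.ncard : ℕ) : ℝ)
      ≤ (((range (X + 1)).biUnion (fun j => (hQf j).toFinset)).card : ℝ) := by exact_mod_cast h1
    _ ≤ ∑ j ∈ range (X + 1), ((hQf j).toFinset.card : ℝ) := by exact_mod_cast card_biUnion_le
    _ ≤ ∑ j ∈ range (X + 1), (1 / 2 : ℝ) ^ (j + 1) * g X := sum_le_sum (fun j _ => h2 j)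
    _ = (∑ j ∈ range (X + 1), (1 / 2 : ℝ) ^ (j + 1)) * g X := by rw [sum_mul]
    _ ≤ 1 * g X := mul_le_mul_of_nonneg_right h3 (hg X)
    _ = g X := one_mul _

/-- the form for powers -/
theorem diag_pow {ι : Type*} [Countable ι] (B : ι → Set ℕ) {s s' : ℝ} (hs : s < s')
    (hB : ∀ i, ∃ C : ℝ, ∀ X : ℕ, 1 ≤ X → ({p : ℕ | p ∈ B i ∧ p ≤ X}.ncard : ℝ) ≤ C * (X : ℝ) ^ s) :
    ∃ P : Set ℕ, (∀ X : ℕ, ({p : ℕ | p ∈ P ∧ p ≤ X}.ncard : ℝ) ≤ (X : ℝ) ^ s') ∧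
      ∀ i, ∃ N : ℕ, ∀ p ∈ B i, N ≤ p → p ∈ P := by
  refine diag B (fun X => (X : ℝ) ^ s') (fun X => Real.rpow_nonneg (Nat.cast_nonneg _) _) (fun i δ hδ => ?_)
  obtain ⟨C, hC⟩ := hB i
  have h1 : Filter.Tendsto (fun X : ℕ => (X : ℝ) ^ (s' - s)) Filter.atTop Filter.atTop :=
    (tendsto_rpow_atTop (by linarith)).comp tendsto_natCast_atTop_atTop
  obtain ⟨N, hN⟩ := Filter.eventually_atTop.1 (h1.eventually_ge_atTop (C / δ))
  refine ⟨N + 1, fun X hX => ?_⟩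
  have hX0 : (0 : ℝ) < X := by
    have : 0 < X := by omega
    exact_mod_cast this
  have h2 := hN X (by omega)
  rw [div_le_iff₀ hδ] at h2
  have h3 : (X : ℝ) ^ s' = (X : ℝ) ^ (s' - s) * (X : ℝ) ^ s := by
    rw [← Real.rpow_add hX0]
    congr 1
    ring
  calc (({p : ℕ | p ∈ B i ∧ p ≤ X}.ncard : ℕ) : ℝ) ≤ C * (X : ℝ) ^ s := hC X (by omega)
    _ ≤ ((X : ℝ) ^ (s' - s) * δ) * (X : ℝ) ^ s :=
        mul_le_mul_of_nonneg_right h2 (Real.rpow_nonneg hX0.le _)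
    _ = δ * (X : ℝ) ^ s' := by rw [h3]; ring

/-- the form for powers of the logarithm -/
theorem diag_log {ι : Type*} [Countable ι] (B : ι → Set ℕ) (U : ℕ)
    (hB : ∀ i, ∃ N : ℕ, ∀ X : ℕ, N ≤ X → ({p : ℕ | p ∈ B i ∧ p ≤ X}.ncard : ℝ) ≤ X / Real.log X ^ (U + 1)) :
    ∃ P : Set ℕ, (∀ X : ℕ, 1 < X → ({p : ℕ | p ∈ P ∧ p ≤ X}.ncard : ℝ) ≤ X / Real.log X ^ U) ∧
      ∀ i, ∃ N : ℕ, ∀ p ∈ B i, N ≤ p → p ∈ P := by
  obtain ⟨P, h1, h2⟩ := diag B (fun X => |(X : ℝ) / Real.log X ^ U|) (fun X => abs_nonneg _) (fun i δ hδ => by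
    obtain ⟨N, hN⟩ := hB i
    have h1 : Filter.Tendsto (fun X : ℕ => Real.log (X : ℝ)) Filter.atTop Filter.atTop :=
      Real.tendsto_log_atTop.comp tendsto_natCast_atTop_atTop
    obtain ⟨N', hN'⟩ := Filter.eventually_atTop.1 (h1.eventually_ge_atTop (1 / δ))
    refine ⟨max N (max N' 2), fun X hX => ?_⟩
    have hX2 : 2 ≤ X := (le_max_right _ _).trans ((le_max_right _ _).trans hX)
    have hX1 : (1 : ℝ) < X := by exact_mod_cast hX2
    have hl : 0 < Real.log X := Real.log_pos hX1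
    have h2 := hN' X ((le_max_left _ _).trans ((le_max_right _ _).trans hX))
    have h3 := hN X ((le_max_left _ _).trans hX)
    have h4 : 0 ≤ (X : ℝ) / Real.log X ^ U := by positivity
    rw [abs_of_nonneg h4]
    refine h3.trans ?_
    rw [pow_succ, ← div_div, div_le_iff₀ hl]
    have h5 : 1 ≤ δ * Real.log X := by
      rw [div_le_iff₀ hδ] at h2
      linarith [mul_comm (Real.log (X : ℝ)) δ]
    calc (X : ℝ) / Real.log X ^ U = (X : ℝ) / Real.log X ^ U * 1 := (mul_one _).symm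
      _ ≤ (X : ℝ) / Real.log X ^ U * (δ * Real.log X) := mul_le_mul_of_nonneg_left h5 h4
      _ = δ * (↑X / Real.log ↑X ^ U) * Real.log ↑X := by ring)
  refine ⟨P, fun X hX => ?_, h2⟩
  have hX1 : (1 : ℝ) < X := by exact_mod_cast hX
  have hl : 0 < Real.log X := Real.log_pos hX1
  have h3 := h1 X
  rwa [abs_of_nonneg (by positivity)] at h3

end Pool.Agent.T9h85.EP
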