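import Pool.Agent.T9h85.EP.Core
import Pool.Agent.Results.MP_2cf66e_nt.SimultaneousApproximations

/-!
# `Unrel`: a number has nothing to do with the periods of a member of a family
-/

set_option autoImplicit false

namespace Pool.Agent.T9h85.EP

open Pool.Agent Pool.Agent.Y890.MV Pool.Agent.Y890.SM Pool.Agent.R349.PC
open Pool.Agent.N603.DB (height)
open Pool.Agent.Results.MP_2cf66e_nt
open Pool.Agent.Results.MP_2cf66e_nt.NearEveryPoint (Value Root)

variable {X : Type} [Fintype X] [DecidableEq X] {ι : Type} [Fintype ι] [DecidableEq ι] {n : ι → ℕ}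

/-- The number `z` has nothing to do with the periods of the member of the one-parameter family `F` over `x`, for the
degree `k` and the bound `(height x) ^ k` for the coefficients: if `z ≠ 0` it is not a value (`NearEveryPoint.Value`) and
if it is transcendental over `ℚ(π)` it is not a root (`NearEveryPoint.Root`). -/
def Unrel (F : SympFam X n) (k : ℕ) (K : IntermediateField ℚ ℂ) [NumberField K] (z : ℂ) (x : K) : Prop :=
  (z ≠ 0 → ¬ Value F k K (algebraMap K ℂ) (height K x) z (fun _ => (x : ℂ))) ∧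
    (Transcendental (IntermediateField.adjoin ℚ {(Real.pi : ℂ)}) z →
      ¬ Root F k K (algebraMap K ℂ) (height K x) z (fun _ => (x : ℂ)))

theorem unrel_of_good {F : SympFam X n} {k : ℕ} {K : IntermediateField ℚ ℂ} [NumberField K] {z : ℂ} {x : K}
    (hgood : Good F k K (algebraMap K ℂ) (height K x) z (fun _ => (x : ℂ))) : Unrel F k K z x := by
  refine ⟨?_, fun htr => NearEveryPoint.not_root F hgood htr⟩
  rintro hz0 ⟨q, c, h5, h6, h7, h8, h9⟩
  rcases h9 with ⟨Y, hY, h10⟩ | h9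
  · exact h10 (hgood.1 q c h6 h7 h8 Y hY)
  · exact hgood.2.1 hz0 q c h5 h6 h7 h9 h8

/-- facts about the exponentials of algebraic numbers, the height, and an example of the families -/
theorem facts :
    ({z : ℂ | ∃ γ : ℂ, IsAlgebraic ℚ γ ∧ z = Complex.exp γ}.Countable ∧
      ∃ γ₀ : ℂ, ∀ γ : ℂ, IsAlgebraic ℚ γ → (∀ q : ℚ, γ ≠ q * γ₀) →
        Transcendental (IntermediateField.adjoin ℚ {(Real.pi : ℂ)}) (Complex.exp γ)) ∧
    (∀ A : Finset ℚ, (∀ μ ∈ A, 0 < μ ∧ μ ≤ 1 / 2) →
      ∃ F : SympFam (Fin 1) (fun _ : Fin 1 × A => 2),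
        F.U = {x | x 0 ∈ Complex.slitPlane ∧ 1 - x 0 ∈ Complex.slitPlane} ∧
        (∀ q x, F.P q x = N156.HG.PH ((q.2.1 : ℚ) : ℝ) (x 0)) ∧
        ∀ x p, p ∈ F.torsor x ↔ p.2 ≠ 0 ∧ ∀ q, -(2 * Complex.I) *
          ((Real.sin (Real.pi * (q.2.1 : ℚ)) : ℝ) : ℂ) * (x 0 * (1 - x 0)) * (p.1 q).det = p.2) ∧
    (∀ (K : Type) [Field K] [NumberField K] (x : K) (T : ℝ), height K x ≤ T ↔ Y120.HtLe K T x) :=
  ⟨SimultaneousApproximations.result.2.1, SimultaneousApproximations.result.2.2.1,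
    fun K _ _ x T => N603.DB.height_le_iff K x T⟩

end Pool.Agent.T9h85.EP
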